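import Pool.Agent.H835.AV.Plus

set_option autoImplicit false

/-!
# The generalized Bloch conjecture for sums of more than `n (c - 1)` forms

Let `K` be an algebraically closed field (for instance `ℂ`), let `F ≠ 0` be a form of degree `n` in
`N` variables which is a sum of forms of degree `n` in `s` disjoint nonempty blocks of variables, and
let `X` in `P^(N-1)` be the hypersurface `F = 0`, with arbitrary singularities. Here `n = m` in
characteristic zero, and `n = m p^a` with `m` prime to `p` in characteristic `p`.

1. If `n (i + 1) < N` and `m i < s`, then `CH_i(X) ⊗ ℚ` is generated by the class of a linear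
   section, in fact by the class of every linear section of dimension `i`.

For `K = ℂ` and `X` smooth the Hodge coniveau of `X` is `≥ c` if and only if `n c < N`. So the
generalized Bloch conjecture holds for all smooth hypersurfaces of degree `n` which are sums of more
than `n (c - 1)` forms in disjoint sets of variables. For `c = 1` this is Roitman's theorem.

The group `(ℤ/m)^s` acts on `X`: the element `g` multiplies the variables in the block `k` by
`ζ ^ g k`. The characters are the `x` in `(ℤ/m)^s`. We say that `x` splits if the set of blocks has a
partition into `i + 2` nonempty parts such that the sum of the `x k` over each part is `0`, or such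
a partition into `i + 1` parts one of which contains more than `n` variables.

2. If `z` is an element of the rational group ring which is killed by all `x` with `∑ x k = 0` which
   do not split, then `z` maps `CH_i(X) ⊗ ℚ` to the multiples of the class of a linear section.
3. If `H` is a subgroup such that all `x` with `∑ x k = 0` which are trivial on `H` split, then all
   `H`-invariants in `CH_i(X) ⊗ ℚ` are multiples of the class of a linear section.

Method. The average of a subvariety over the group `(ℤ/m)^(i + 1)` of a partition into `i + 1` parts
is computed by an induction with pencils; modulo rational equivalence it is a combination of a linear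
section and of linear subspaces spanned by one point in each of the parts. For a part with more than
`n` variables there is a line through the point which meets the cone `f_k = 0` only there, or is
contained in it (Roitman); so `n` times the linear subspace is equivalent to a linear section.
-/

universe u

namespace Pool.Agent.Results.MP_13bc1c_ag.ConiveauSumsOfForms

open MvPolynomial Pool.Agent.H835.AV
open Pool.Agent.W5h86.HC (lform)

section defs

variable {K : Type u} [Field K] {N s m n i : ℕ}

/-- The action of `(ℤ/m)^s` on the Chow groups of the hypersurface `F = 0`, where `F` is a sum of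
forms of degree `n` in the blocks of variables given by `β` (the variable `X l` belongs to the block
`β l`): `g` acts by the automorphism which multiplies the coordinates in the block `k` by
`ζ ^ g k`. -/
noncomputable def act {ζ : K} (hζ : IsPrimitiveRoot ζ m) [NeZero m] (hmn : m ∣ n)
    {β : Fin N → Fin s} {F : MvPolynomial (Fin N) K} (hF : SF β n F) (i : ℕ)
    (g : Fin s → ZMod m) : CH (Ideal.span {F}) i →ₗ[ℚ] CH (Ideal.span {F}) i :=
  blockAct hζ.pow_eq_one (span_stable hζ.pow_eq_one hmn hF) i g

/-- The linear forms with the coefficients `c 1, …, c r` cut out a linear section of dimension `i` of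
the hypersurface `F = 0`: they are linearly independent, `r = N - i - 2`, and `F` does not vanish on
the linear subspace which they define. -/
def IsSection (F : MvPolynomial (Fin N) K) (i : ℕ) {r : ℕ} (c : Fin r → Fin N → K) : Prop :=
  LinearIndependent K c ∧ i + 2 + r = N ∧ F ∉ Ideal.span (Set.range fun l => lform (c l))

/-- There are linear sections of dimension `i`, and all elements of `A` are multiples of the class of
every such section. -/
def SectionMultiples (F : MvPolynomial (Fin N) K) (i : ℕ) (A : Set (CH (Ideal.span {F}) i)) :
    Prop :=
  (∃ (r : ℕ) (c : Fin r → Fin N → K), IsSection F i c) ∧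
  ∀ (r : ℕ) (c : Fin r → Fin N → K), IsSection F i c → ∀ α ∈ A, ∃ q : ℚ,
    α = q • (ratEq (Ideal.span {F}) i).mkQ (cyc (Ideal.span {F}) i
      (Ideal.span {F} ⊔ Ideal.span (Set.range fun l => lform (c l))))

end defs

/-- **Cycles of low dimension on sums of forms.** Here `SF β n F` says that `F` is a sum of forms of
degree `n`, one for each block of variables, `CH I i` is the Chow group of cycles of dimension `i`
with rational coefficients on the closed subscheme `I = 0` of the projective space, and
`Splits β n i x` says that the set of blocks has a partition into `i + 2` nonempty parts such that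
the sum of the `x k` over each part is `0`, or such a partition into `i + 1` parts one of which
contains more than `n` variables. -/
theorem result (K : Type u) [Field K] [IsAlgClosed K] (m n a : ℕ) [NeZero m] (ζ : K)
    (hζ : IsPrimitiveRoot ζ m) (hmn : m ∣ n) (hn : n = m * ringExpChar K ^ a) (N s i : ℕ)
    (hi : i + 2 ≤ N) (β : Fin N → Fin s) (hβ : Function.Surjective β)
    (F : MvPolynomial (Fin N) K) (hF : SF β n F) (hF0 : F ≠ 0) :
    (n * (i + 1) < N → m * i < s → SectionMultiples F i Set.univ) ∧
    (∀ z : (Fin s → ZMod m) → ℚ,
      (∀ x : Fin s → ZMod m, ∑ k, x k = 0 → ¬ Splits β n i x →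
        ∑ g, (z g : ℂ) * ZMod.stdAddChar (∑ k, x k * g k) = 0) →
      SectionMultiples F i (Set.range fun α => ∑ g, z g • act hζ hmn hF i g α)) ∧
    (∀ H : AddSubgroup (Fin s → ZMod m),
      (∀ x : Fin s → ZMod m, ∑ k, x k = 0 → (∀ h ∈ H, ∑ k, x k * h k = 0) →
        Splits β n i x) →
      SectionMultiples F i {α | ∀ g ∈ H, act hζ hmn hF i g α = α}) := by
  have hinf : Infinite K := IsAlgClosed.instInfinite
  have hn0 : 0 < n := by
    rw [hn]
    exact Nat.mul_pos (NeZero.pos m) (pow_pos (expChar_pos K _) a)
  have hex : ∃ (r : ℕ) (c : Fin r → Fin N → K), IsSection F i c := by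
    obtain ⟨r, hr⟩ := Nat.exists_eq_add_of_le hi
    obtain ⟨c, h1, h2⟩ := exists_section hn0 hF.hom hF0 hr.symm
    exact ⟨r, c, h1, hr.symm, h2⟩
  have key : ∀ z : (Fin s → ZMod m) → ℚ,
      (∀ x : Fin s → ZMod m, ∑ k, x k = 0 → ¬ Splits β n i x →
        ∑ g, (z g : ℂ) * ZMod.stdAddChar (∑ k, x k * g k) = 0) →
      SectionMultiples F i (Set.range fun α => ∑ g, z g • act hζ hmn hF i g α) := by
    intro z hz
    refine ⟨hex, fun r c hc => ?_⟩
    rintro _ ⟨α, rfl⟩
    exact plus_main hζ hn hβ hF hc.1 hc.2.1 hc.2.2 z hz (span_stable hζ.pow_eq_one hmn hF) α
  have key' : ∀ H : AddSubgroup (Fin s → ZMod m),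
      (∀ x : Fin s → ZMod m, ∑ k, x k = 0 → (∀ h ∈ H, ∑ k, x k * h k = 0) →
        Splits β n i x) →
      SectionMultiples F i {α | ∀ g ∈ H, act hζ hmn hF i g α = α} := by
    intro H hH
    obtain ⟨h1, h2⟩ := key (proj H) fun x hx hsp => by
      by_contra hcon
      apply hsp
      refine hH x hx fun h hh => ?_
      by_contra hne
      exact hcon (sum_proj_ch H hh hne)
    exact ⟨h1, fun r c hc α hα => h2 r c hc α ⟨α, sum_proj_smul H hα⟩⟩
  refine ⟨fun hN hs => ?_, key, key'⟩
  obtain ⟨h1, h2⟩ := key' ⊥ fun x hx _ => splits_of_card hs hN hx
  refine ⟨h1, fun r c hc α _ => h2 r c hc α fun g hg => ?_⟩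
  rw [AddSubgroup.mem_bot] at hg
  rw [hg]
  exact blockAct_zero hζ.pow_eq_one _ i α

end Pool.Agent.Results.MP_13bc1c_ag.ConiveauSumsOfForms
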