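import Pool.Agent.H835.AV.DiagSmall
import Pool.Agent.H835.AV.ChowAct

set_option autoImplicit false

/-!
# The generalized Bloch conjecture for quotients of diagonal complete intersections of degrees
# 2, 3, 4, 5, 7, of all dimensions and for all coniveaus

Let `m` be one of the numbers `2, 3, 4, 5, 7` and `K` a field which contains a primitive `m`-th root
of unity `ζ` (for the problem `K = ℂ`). Let `X` in `P^(N-1)` be a smooth complete intersection of
any number `ρ` of diagonal hypersurfaces `∑ j, A i j * x j ^ m = 0`, with any coefficients such that
all maximal minors of `A` are nonzero, of any dimension `n = N - 1 - ρ`. Let `z` be any element of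
the group ring over `ℚ` of the group `(ℤ/m)^N`, which acts on `X` (the element `g` multiplies the
coordinate `x j` by `ζ ^ g j`). For example `z` can be the sum of the elements of any subgroup `H`,
this is the case of the quotient `Y = X / H`, since `CH_i(Y) ⊗ ℚ` is the group of the
`H`-invariants of `CH_i(X) ⊗ ℚ`.

The theorem is the generalized Bloch conjecture for `(X, z)`, for all coniveaus `c ≤ n / 2`: if `z`
acts as zero on the groups `H^(p,q)(X)` with `p + q = n` and `min(p,q) < c`, then `z` acts as zero
on the homologically trivial cycles of dimension `i < c`, in fact the image of `z` in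
`CH_i(X) ⊗ ℚ` consists of the multiples of the class of a linear section.

The condition is stated with characters. By Griffiths, Terasoma and others `H^(n-q,q)(X)` (up to
the powers of the hyperplane class) is the sum of its eigenspaces for the characters `x` (or `-x`,
depending on conventions) with `∑ x j = 0`, which have less than `ρ` zero coordinates, say `e` of
them, and with `m (q + 1) ≤ ∑ ⟨x j⟩ ≤ m (q + ρ - e)`, the sum of the representatives in
`{1, ..., m - 1}` of the nonzero `x j`. With the height `hgt x = ∑ ⟨x j⟩ + e m` the smallest `q` is
`hgt x / m - ρ`. So the `x` which must be killed by `z` are those with `hgt x < (c + ρ) m`.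

In the proof it is shown that in these degrees (but not in degree 6, by `x = (1, 3, 4, 4)`) a vector
`x` in `(ℤ/m)^N` with sum zero such that the height of all its conjugates `t x` is at least `k m`
can be partitioned in at least `k` nonempty parts with sum zero. The cycles are moved with the method of
`MP_0b9e0b_ag.SumsOfFormsLowDim`.
-/

universe u

namespace Pool.Agent.Results.MP_13bc1c_ag.DiagonalSmallDegrees

open MvPolynomial Pool.Agent.H835.AV

/-- **The generalized Bloch conjecture for diagonal complete intersections of degrees 2, 3, 4, 5, 7
and all elements of the group ring.** Here `diagI m A` is the ideal of `X`, `hgt x` is the height of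
`x`, `rootAct` is the action of `(ℤ/m)^N` on the Chow group `CH (diagI m A) i` of cycles of
dimension `i` with rational coefficients, `ratEq I i` is the space of cycles of dimension `i` on
`I = 0` which are rationally equivalent to zero, `cyc I i J` the cycle of the closed subscheme
`J = 0`, and `DimAtMost J i` says that `J = 0` has dimension at most `i`. -/
theorem result (K : Type u) [Field K] (m : ℕ) [NeZero m]
    (hm : m = 2 ∨ m = 3 ∨ m = 4 ∨ m = 5 ∨ m = 7) (ζ : K) (hζ : IsPrimitiveRoot ζ m) (N ρ c : ℕ)
    (A : Matrix (Fin ρ) (Fin N) K)
    (hA : ∀ f : Fin ρ → Fin N, Function.Injective f → (A.submatrix id f).det ≠ 0)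
    (z : (Fin N → ZMod m) → ℚ)
    (hz : ∀ x : Fin N → ZMod m, ∑ j, x j = 0 →
      (Finset.univ.filter fun j => x j = 0).card < ρ → hgt x < (c + ρ) * m →
      ∑ g, (z g : ℂ) * ZMod.stdAddChar (∑ j, x j * g j) = 0)
    (i : ℕ) (hi : i < c) (hiN : i + ρ < N) :
    ∃ (r : ℕ) (l : Fin r → Fin N),
      DimAtMost (diagI m A ⊔ Ideal.span (Set.range fun j => X (l j))) i ∧
      ∀ α : CH (diagI m A) i, ∃ q : ℚ,
        ∑ g, z g • rootAct hζ.pow_eq_one (dvd_refl m) A i g α =
        q • (ratEq (diagI m A) i).mkQ
          (cyc (diagI m A) i (diagI m A ⊔ Ideal.span (Set.range fun j => X (l j)))) := by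
  have hs : StepProp m := by
    rcases hm with rfl | rfl | rfl | rfl | rfl
    · exact stepProp_2
    · exact stepProp_3
    · exact stepProp_4
    · exact stepProp_5
    · exact stepProp_7
  have h := rootAct_main (n := m) (a := 0) hζ (by rw [pow_zero, mul_one]) A i z
    (fun e he z' hz' => diag_small he hs A hA (c := c) (by omega) (by omega) (by omega) z' (by
      intro x hx h0 hh
      have h1 := sum_ch_conj z x (-1) (hz x hx h0 hh)
      have h2 : (fun j => ((-1 : (ZMod m)ˣ) : ZMod m) * x j) = -x := by
        funext j
        rw [Units.val_neg, Units.val_one, neg_one_mul]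
        rfl
      rw [h2] at h1
      rw [← h1]
      refine Fintype.sum_equiv (Equiv.neg _) _ _ fun g => ?_
      rw [Equiv.neg_apply, hz', ch_neg_left, neg_neg]))
  exact h

end Pool.Agent.Results.MP_13bc1c_ag.DiagonalSmallDegrees
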