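import Pool.Agent.H835.AV.LowAct

set_option autoImplicit false

/-!
# Cycles of low dimension on quotients of intersections of sums of forms

Let `K` be a field (for instance `ℂ`) which contains a primitive `m`-th root of unity `ζ`, and let
`X` in `P^(N-1)` be the zero scheme of `ρ` forms of degree `n`, each of which is a sum of forms of
degree `n` in `s` disjoint nonempty blocks of variables. Here `n = m` in characteristic zero and
`n = m p^a` in characteristic `p`. The degree is arbitrary, so `X` can be of general type, and there
is no condition on the singularities. The group `(ℤ/m)^s` acts on `X`: the element `g` multiplies the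
variables in the block `k` by `ζ ^ g k`.

The characters of this group are the `x` in `(ℤ/m)^s`. The theorem says that the part of
`CH_i(X) ⊗ ℚ` which belongs to a character `x` is trivial if the set of blocks has a partition into
`i + 1 + ρ` nonempty parts such that the sum of the `x k` over each part is `0`.

1. If `z` is an element of the rational group ring which is killed by all other characters `x` with
   `∑ x k = 0`, then `z` maps `CH_i(X) ⊗ ℚ` to the multiples of the class of a linear section.
2. If `H` is a subgroup such that all characters `x` with `∑ x k = 0` which are trivial on `H` have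
   such a partition, then all `H`-invariants in `CH_i(X) ⊗ ℚ`, that is, all cycle classes on the
   quotient `X / H`, are multiples of the class of a linear section.
-/

universe u

namespace Pool.Agent.Results.MP_13bc1c_ag.QuotientsOfSumsOfForms

open MvPolynomial Pool.Agent.H835.AV

section defs

variable {K : Type u} [Field K] {N s m n ρ i : ℕ}

/-- The ideal of the zero scheme of the forms `G r`. -/
noncomputable def zeros (G : Fin ρ → MvPolynomial (Fin N) K) : Ideal (MvPolynomial (Fin N) K) :=
  Ideal.span (Set.range G)

/-- The action of `(ℤ/m)^s` on the Chow groups of the zero scheme of the `G r`, where each `G r` is a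
sum of forms of degree `n` in the blocks of variables given by `β` (the variable `X l` belongs to the
block `β l`): `g` acts by the automorphism which multiplies the coordinates in the block `k` by
`ζ ^ g k`. -/
noncomputable def act {ζ : K} (hζ : IsPrimitiveRoot ζ m) [NeZero m] (hmn : m ∣ n)
    {β : Fin N → Fin s} {G : Fin ρ → MvPolynomial (Fin N) K} (hG : ∀ r, SF β n (G r)) (i : ℕ)
    (g : Fin s → ZMod m) : CH (zeros G) i →ₗ[ℚ] CH (zeros G) i :=
  blockAct hζ.pow_eq_one (sums_stable hζ.pow_eq_one hmn hG) i g

/-- There is a partition of the set of blocks into `c` nonempty parts such that the sum of the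
`x k` over each part is `0`. -/
def Splits (x : Fin s → ZMod m) (c : ℕ) : Prop :=
  ∃ π : Fin s → Fin c, Function.Surjective π ∧ ∀ l, ∑ k with π k = l, x k = 0

/-- All elements of `A` are multiples of the class of one linear section of `I = 0` of dimension at
most `i`, cut out by coordinate hyperplanes. -/
def SectionMultiples (I : Ideal (MvPolynomial (Fin N) K)) (i : ℕ) (A : Set (CH I i)) : Prop :=
  ∃ (r : ℕ) (c : Fin r → Fin N), DimAtMost (I ⊔ Ideal.span (Set.range fun l => X (c l))) i ∧
    ∀ α ∈ A, ∃ q : ℚ,
      α = q • (ratEq I i).mkQ (cyc I i (I ⊔ Ideal.span (Set.range fun l => X (c l))))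

end defs

/-- **Cycles of low dimension on quotients of intersections of sums of forms.** Here `SF β n F` says
that `F` is a sum of forms of degree `n`, one for each block of variables, and `CH I i` is the Chow
group of cycles of dimension `i` with rational coefficients on the closed subscheme `I = 0` of the
projective space. -/
theorem result (K : Type u) [Field K] (m n a : ℕ) [NeZero m] (ζ : K) (hζ : IsPrimitiveRoot ζ m)
    (hmn : m ∣ n) (hn : n = m * ringExpChar K ^ a) (N s ρ i : ℕ) (hs : i + 1 + ρ ≤ s)
    (β : Fin N → Fin s) (hβ : Function.Surjective β) (G : Fin ρ → MvPolynomial (Fin N) K)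
    (hG : ∀ r, SF β n (G r)) :
    (∀ z : (Fin s → ZMod m) → ℚ,
      (∀ x : Fin s → ZMod m, ∑ k, x k = 0 → ¬ Splits x (i + 1 + ρ) →
        ∑ g, (z g : ℂ) * ZMod.stdAddChar (∑ k, x k * g k) = 0) →
      SectionMultiples (zeros G) i (Set.range fun α => ∑ g, z g • act hζ hmn hG i g α)) ∧
    (∀ H : AddSubgroup (Fin s → ZMod m),
      (∀ x : Fin s → ZMod m, ∑ k, x k = 0 → (∀ h ∈ H, ∑ k, x k * h k = 0) →
        Splits x (i + 1 + ρ)) →
      SectionMultiples (zeros G) i {α | ∀ g ∈ H, act hζ hmn hG i g α = α}) := by
  have key : ∀ z : (Fin s → ZMod m) → ℚ,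
      (∀ x : Fin s → ZMod m, ∑ k, x k = 0 → ¬ Splits x (i + 1 + ρ) →
        ∑ g, (z g : ℂ) * ZMod.stdAddChar (∑ k, x k * g k) = 0) →
      SectionMultiples (zeros G) i (Set.range fun α => ∑ g, z g • act hζ hmn hG i g α) := by
    intro z hz
    obtain ⟨r, c, h1, h2⟩ := low_act hζ hn hβ hs hG z hz
    refine ⟨r, c, h1, ?_⟩
    rintro _ ⟨α, rfl⟩
    exact h2 α
  refine ⟨key, fun H hH => ?_⟩
  obtain ⟨r, c, h1, h2⟩ := key (proj H) fun x hx hsp => by
    by_contra hcon
    apply hsp
    refine hH x hx fun h hh => ?_
    by_contra hne
    exact hcon (sum_proj_ch H hh hne)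
  refine ⟨r, c, h1, fun α hα => ?_⟩
  refine h2 α ⟨α, ?_⟩
  exact sum_proj_smul H hα

end Pool.Agent.Results.MP_13bc1c_ag.QuotientsOfSumsOfForms
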