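import Pool.Agent.H837.UF.Pair

/-!
# Triviality of the rational Chow group of zero-cycles in all dimensions and rational equivalences of
# bounded complexity on the reductions to positive characteristic

No hypothesis is assumed. Let `X` be a projective variety (of any dimension) over the complex numbers,
given by homogeneous equations `S` with coefficients in a finitely generated subring `R` of the complex
numbers. (Every complex projective variety is of this kind.) For every homomorphism `φ` from `R` to an
algebraic closure `F` of the field with `p` elements there is the reduction `X_φ`, the projective
variety over `F` given by the equations with the coefficients `φ(c)`.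

**Theorem.** The following are equivalent:

1. for any two points `x`, `y` of `X` there is `N ≥ 1` such that `N [x]` and `N [y]` are rationally
   equivalent (that is, `A_0^hom(X) = 0` if `X` is connected, with rational coefficients);
2. there is one such `N` for all pairs of points;
3. there are a number `c`, a nonzero `h` in `R` and `p₀` such that for all `p ≥ p₀`, all `φ` with
   `φ(h) ≠ 0` and any two points `x`, `y` of the reduction `X_φ` there is a positive `N ≤ c` such that
   `N [x]` and `N [y]` are rationally equivalent with complexity at most `c`;
4. there is a number `c` such that for all nonzero `h` in `R` and all `p₀` this is true for at least one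
   prime `p ≥ p₀` and one `φ` with `φ(h) ≠ 0`.

Here a rational equivalence between the effective zero-cycles `x` and `y` of degree `n` has complexity
at most `c` if for an effective zero-cycle `w` of degree `c` the zero-cycles `x + w` and `y + w` are the
values at `0` and `∞` of a morphism of degree `c` from the projective line to the symmetric product
`S^(n+c)`, embedded by Chow forms.

Over an algebraic closure of a finite field any two points of a connected projective variety lie on a
connected curve over a finite field, so `N [x]` and `N [y]` are rationally equivalent for some `N ≥ 1`:
without the bounds the condition in (3) is always satisfied, whatever the Hodge numbers of `X` are. The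
generalized Bloch conjecture for `c = 1` (for `X` smooth with `h^{p,0} = 0` for all `p > 0` one has
`A_0^hom(X) = 0`) says exactly that for these `X` the numbers `N` and the complexities of the rational
equivalences which are known to exist on the reductions are bounded uniformly in `p` (3), and it is
enough to bound them on one sequence of reductions which is dense (4). By the theorems of Mumford and
Roitman they are not bounded if `h^{p,0} ≠ 0` for some `p > 0`.

## The proof

* The field of complex numbers is isomorphic, over `R`, to the ultraproduct of the fields `F_j` of
  characteristic `p_j` for every sequence of homomorphisms `φ_j` from `R` to `F_j` such that every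
  nonzero element of `R` is mapped to zero only by finitely many of the `φ_j`.
* Two effective zero-cycles on the ultraproduct are rationally equivalent with complexity at most `c` if
  and only if the corresponding zero-cycles over `F_j` are, for almost all `j`.
* If (3) is false there are such `φ_j` and points `x_j`, `y_j` such that `N [x_j]` and `N [y_j]` are not
  rationally equivalent with complexity `j`, for all positive `N ≤ j`. The points given by them over
  the ultraproduct contradict (1). If (4) is true then (2) is true with `N = c!`.
-/

set_option autoImplicit false

namespace Pool.Agent.Results.MP_13bc1c_ag.TrivialityOverFiniteFields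

open MvPolynomial Pool.Agent.Y148.OD Pool.Agent.H837.UF

/-- **Triviality of zero-cycles is uniform boundedness over finite fields.** -/
theorem result {R : Type} [CommRing R] [Algebra.FiniteType ℤ R] {r : ℕ}
    (S : Finset (MvPolynomial (Fin (r + 1)) R)) (hS : ∀ P ∈ S, ∃ d : ℕ, P.IsHomogeneous d)
    (ι : R →+* ℂ) (hι : Function.Injective ι) :
    List.TFAE
      [∀ x y : Member S ι, ∃ N : ℕ, 1 ≤ N ∧
         γ (Member S ι) (fun _ : Fin N => x) = γ (Member S ι) (fun _ : Fin N => y),
       ∃ N : ℕ, 1 ≤ N ∧ ∀ x y : Member S ι,
         γ (Member S ι) (fun _ : Fin N => x) = γ (Member S ι) (fun _ : Fin N => y),
       ∃ (h : R) (c p₀ : ℕ), h ≠ 0 ∧ ∀ (p : ℕ) [Fact p.Prime], p₀ ≤ p →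
         ∀ φ : R →+* AlgebraicClosure (ZMod p), φ h ≠ 0 → Torsion S φ c,
       ∃ c : ℕ, ∀ h : R, h ≠ 0 → ∀ p₀ : ℕ, ∃ (p : ℕ) (_ : Fact p.Prime)
         (φ : R →+* AlgebraicClosure (ZMod p)), p₀ ≤ p ∧ φ h ≠ 0 ∧ Torsion S φ c] :=
  pair_main S hS ι hι

end Pool.Agent.Results.MP_13bc1c_ag.TrivialityOverFiniteFields
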